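import Mathlib

/-!
Etale groupoids, amenability and finite dynamical complexity.
-/

namespace Pool.Agent.P.MP_b83b91_an

open Filter

/-- An etale groupoid with arrow space `G` and unit space `X`. The product `mul g h` is only
constrained (and only used) on composable pairs, those with `s g = r h`. -/
structure EtaleGroupoid (G X : Type) [TopologicalSpace G] [TopologicalSpace X] where
  r : G → X
  s : G → X
  unit : X → G
  mul : G → G → G
  inv : G → G
  r_unit : ∀ x, r (unit x) = x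
  s_unit : ∀ x, s (unit x) = x
  r_mul : ∀ g h, s g = r h → r (mul g h) = r g
  s_mul : ∀ g h, s g = r h → s (mul g h) = s h
  mul_assoc : ∀ g h k, s g = r h → s h = r k → mul (mul g h) k = mul g (mul h k)
  unit_mul : ∀ g, mul (unit (r g)) g = g
  mul_unit : ∀ g, mul g (unit (s g)) = g
  r_inv : ∀ g, r (inv g) = s g
  s_inv : ∀ g, s (inv g) = r g
  mul_inv : ∀ g, mul g (inv g) = unit (r g)
  inv_mul : ∀ g, mul (inv g) g = unit (s g)
  continuous_unit : Continuous unit
  continuousOn_mul : ContinuousOn (fun q : G × G => mul q.1 q.2) {q | s q.1 = r q.2}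
  continuous_inv : Continuous inv
  r_local : IsLocalHomeomorph r
  s_local : IsLocalHomeomorph s

namespace EtaleGroupoid

variable {G X : Type} [TopologicalSpace G] [TopologicalSpace X] (Γ : EtaleGroupoid G X)

/-- all isotropy groups are trivial -/
def Principal : Prop := ∀ g, Γ.r g = Γ.s g → g = Γ.unit (Γ.r g)

/-- topological amenability -/
def Amenable : Prop :=
  ∃ (ι : Type) (_ : Preorder ι) (_ : IsDirectedOrder ι) (_ : Nonempty ι) (ξ : ι → G → ℝ),
    (∀ i, Continuous (ξ i) ∧ HasCompactSupport (ξ i) ∧ (∀ g, 0 ≤ ξ i g) ∧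
      ∀ x, HasSum (fun h : {h // Γ.r h = x} => ξ i h) 1) ∧
    ∀ K : Set G, IsCompact K → ∀ ε > 0, ∀ᶠ i in atTop, ∀ g ∈ K,
      Summable (fun h : {h // Γ.r h = Γ.s g} => |ξ i (Γ.mul g h) - ξ i h|) ∧
      ∑' h : {h // Γ.r h = Γ.s g}, |ξ i (Γ.mul g h) - ξ i h| < ε

/-- subgroupoids: closed under products of composable pairs and under inverses -/
def IsSub (H : Set G) : Prop :=
  (∀ g ∈ H, ∀ h ∈ H, Γ.s g = Γ.r h → Γ.mul g h ∈ H) ∧ ∀ g ∈ H, Γ.inv g ∈ H

/-- the subgroupoid generated by a set -/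
def gen (S : Set G) : Set G := ⋂₀ {H | Γ.IsSub H ∧ S ⊆ H}

/-- `H` is decomposable over `C` -/
def Decomposable (H : Set G) (C : Set (Set G)) : Prop :=
  ∀ K : Set G, IsOpen K → IsCompact (closure K) → K ⊆ H →
    ∃ U₀ U₁ : Set X, IsOpen U₀ ∧ IsOpen U₁ ∧ U₀ ∪ U₁ = Γ.unit ⁻¹' H ∧
      Γ.gen {h ∈ K | Γ.s h ∈ U₀} ∈ C ∧ Γ.gen {h ∈ K | Γ.s h ∈ U₁} ∈ C

/-- finite dynamical complexity: `G` lies in every set of open subgroupoids that contains the
relatively compact open subgroupoids and is closed under decomposability, that is, in the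
smallest such set -/
def FDC : Prop :=
  ∀ D : Set (Set G), (∀ H ∈ D, IsOpen H ∧ Γ.IsSub H) →
    (∀ H, IsOpen H → Γ.IsSub H → IsCompact (closure H) → H ∈ D) →
    (∀ H, IsOpen H → Γ.IsSub H → Γ.Decomposable H D → H ∈ D) → Set.univ ∈ D

end EtaleGroupoid

end Pool.Agent.P.MP_b83b91_an
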