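import Pool.Agent.Lib.ZpIndex.Fourier

/-!
The free subshift and the sublinear genus property.
-/

namespace Pool.Agent.P.MP_b83b91_an

open Pool.Agent.Lib.ZpIndex

/-- the full shift over the unit interval -/
abbrev Om := ℤ → Set.Icc (0 : ℝ) 1

/-- the shift -/
def shf (n : ℤ) (x : Om) : Om := fun i => x (i + n)

theorem shf_zero (x : Om) : shf 0 x = x := by
  funext i; simp [shf]

theorem shf_add (m n : ℤ) (x : Om) : shf (m + n) x = shf m (shf n x) := by
  funext i; simp [shf, add_assoc]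

theorem continuous_shf (n : ℤ) : Continuous (shf n) :=
  continuous_pi fun i => continuous_apply (i + n)

/-- periodic points -/
noncomputable def emb (p : ℕ) (y : ZMod p → ℝ) : Om :=
  fun n => Set.projIcc 0 1 zero_le_one (p * y (n : ZMod p))

theorem continuous_emb (p : ℕ) : Continuous (emb p) :=
  continuous_pi fun _ => continuous_projIcc.comp (continuous_const.mul (continuous_apply _))

theorem emb_sh (p : ℕ) (n : ℤ) (y : ZMod p → ℝ) : emb p (sh (n : ZMod p) y) = shf n (emb p y) := by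
  funext i
  simp [emb, sh, shf]

/-- periodic points whose orbit stays in `V` -/
def Full (p : ℕ) (V : Set Om) : Set (ZMod p → ℝ) := {y | ∀ n : ℤ, shf n (emb p y) ∈ V}

/-- sublinear genus of the periodic points near `Z` -/
def Small (Z : Set Om) : Prop :=
  ∀ ε : ℝ, 0 < ε → ∃ V : Set Om, IsOpen V ∧ Z ⊆ V ∧ ∃ p0 : ℕ, ∀ (p : ℕ) [Fact p.Prime], p0 ≤ p →
    ∃ m : ℕ, (m : ℝ) ≤ ε * p ∧ Cov m (Full p V)

theorem small_empty : Small ∅ := by
  intro ε hε
  refine ⟨∅, isOpen_empty, le_rfl, 0, fun p _ _ => ⟨0, by simp; positivity, ?_⟩⟩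
  exact cov_empty.mono (fun y hy => hy 0) le_rfl

/-- points all of whose windows meet a given set -/
def Win (L : ℕ) (C : Set Om) : Set Om := {x | ∀ n : ℤ, ∃ a < L + 1, shf (n + (a : ℕ)) x ∈ C}

theorem isClosed_Win (L : ℕ) {C : Set Om} (hC : IsClosed C) : IsClosed (Win L C) := by
  have : Win L C = ⋂ n : ℤ, ⋃ a ∈ Finset.range (L + 1), shf (n + (a : ℕ)) ⁻¹' C := by
    ext x
    simp [Win, -Order.lt_add_one_iff]
  rw [this]
  exact isClosed_iInter fun n => isClosed_biUnion_finset fun a _ => hC.preimage (continuous_shf _)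

theorem Win_shf (L : ℕ) (C : Set Om) (m : ℤ) {x : Om} (hx : x ∈ Win L C) : shf m x ∈ Win L C := by
  intro n
  obtain ⟨a, ha, h⟩ := hx (n + m)
  refine ⟨a, ha, ?_⟩
  rwa [← shf_add, show n + (a : ℕ) + m = n + m + (a : ℕ) by ring]

theorem cast_div_le (p R : ℕ) : ((p / (R + 1) : ℕ) : ℝ) ≤ p / (R + 1) := by
  have := Nat.cast_div_le (α := ℝ) (m := p) (n := R + 1)
  simpa using this

theorem small_step (Z : Set Om) (h : ∀ L : ℕ, ∃ ψ : Om → ℝ, Continuous ψ ∧
    Small (Z ∩ Win L {x | 1 / 4 ≤ ψ x}) ∧ Small (Z ∩ Win L {x | ψ x ≤ 3 / 4})) : Small Z := by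
  intro ε hε
  obtain ⟨L, hL⟩ := exists_nat_gt (12 / ε)
  obtain ⟨ψ, hψ, h0, h1⟩ := h (L + 1)
  obtain ⟨V0, hV0, hZ0, p0, hp0⟩ := h0 (ε / 3) (by positivity)
  obtain ⟨V1, hV1, hZ1, p1, hp1⟩ := h1 (ε / 3) (by positivity)
  have hc0 : IsClosed (Win (L + 1) {x | 1 / 4 ≤ ψ x}) :=
    isClosed_Win _ (isClosed_le continuous_const hψ)
  have hc1 : IsClosed (Win (L + 1) {x | ψ x ≤ 3 / 4}) :=
    isClosed_Win _ (isClosed_le hψ continuous_const)
  refine ⟨(V0 ∪ (Win (L + 1) {x | 1 / 4 ≤ ψ x})ᶜ) ∩ (V1 ∪ (Win (L + 1) {x | ψ x ≤ 3 / 4})ᶜ),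
    (hV0.union hc0.isOpen_compl).inter (hV1.union hc1.isOpen_compl), fun x hx => ⟨?_, ?_⟩,
    max (max p0 p1) 3, fun p _ hp => ?_⟩
  · by_cases hx' : x ∈ Win (L + 1) {x | 1 / 4 ≤ ψ x}
    · exact Or.inl (hZ0 ⟨hx, hx'⟩)
    · exact Or.inr hx'
  · by_cases hx' : x ∈ Win (L + 1) {x | ψ x ≤ 3 / 4}
    · exact Or.inl (hZ1 ⟨hx, hx'⟩)
    · exact Or.inr hx'
  obtain ⟨m0, hm0, hc0⟩ := hp0 p (by omega)
  obtain ⟨m1, hm1, hc1⟩ := hp1 p (by omega)
  have hb := cov_bad (p := p) (by omega) (L + 1) (by omega) (show (1 / 4 : ℝ) < 3 / 4 by norm_num)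
  let Ψ : (ZMod p → ℝ) → (ZMod p → ℝ) := fun y j => ψ (emb p (sh j y))
  have hΨ : Continuous Ψ :=
    continuous_pi fun j => hψ.comp ((continuous_emb p).comp (continuous_sh j))
  have hb' := hb.preimage Ψ hΨ 1 one_ne_zero (fun s y => by
    funext j
    simp only [Ψ, one_mul, ← sh_add]
    rfl)
  refine ⟨m0 + m1 + 4 * (p / (L + 1 + 1)), ?_, ((hc0.union hc1).union hb').mono ?_ le_rfl⟩
  · have e1 := cast_div_le p (L + 1)
    have e2 : (p : ℝ) / (((L + 1 : ℕ) : ℝ) + 1) ≤ ε / 12 * p := by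
      rw [div_le_iff₀ (by positivity)]
      rw [div_lt_iff₀ hε] at hL
      have hp' : (0 : ℝ) ≤ p := Nat.cast_nonneg _
      push_cast
      nlinarith
    rw [Nat.cast_add, Nat.cast_add, Nat.cast_mul]
    push_cast at e1 e2 ⊢
    linarith
  · intro y hy
    by_cases hy0 : emb p y ∈ Win (L + 1) {x | 1 / 4 ≤ ψ x}
    · exact Or.inl (Or.inl fun n => (hy n).1.resolve_right (not_not.2 (Win_shf _ _ n hy0)))
    by_cases hy1 : emb p y ∈ Win (L + 1) {x | ψ x ≤ 3 / 4}
    · exact Or.inl (Or.inr fun n => (hy n).2.resolve_right (not_not.2 (Win_shf _ _ n hy1)))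
    right
    simp only [Win, Set.mem_ofPred_eq, not_forall, not_exists, not_and, not_le] at hy0 hy1
    obtain ⟨n0, hn0⟩ := hy0
    obtain ⟨n1, hn1⟩ := hy1
    refine ⟨⟨n1, fun i hi => ?_⟩, n0, ?_⟩
    · have := hn1 i hi
      rw [← emb_sh] at this
      push_cast at this
      exact this.le
    · have := hn0 0 (by omega)
      rw [← emb_sh] at this
      simpa [Ψ] using this.le

/-- the `k`-th condition -/
def Xk (k : ℕ) : Set Om := {x | ∀ n : ℤ,
  (∃ i < 64 * 2 ^ k + 1, (x (n + (k + 1) * (i : ℕ)) : ℝ) ≤ 1 / 3) ∧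
  (∃ i < 64 * 2 ^ k + 1, 2 / 3 ≤ (x (n + (k + 1) * (i : ℕ)) : ℝ))}

/-- the free subshift -/
def XX : Set Om := ⋂ k, Xk k

theorem isClosed_Xk (k : ℕ) : IsClosed (Xk k) := by
  have : Xk k = ⋂ n : ℤ,
      ((⋃ i ∈ Finset.range (64 * 2 ^ k + 1), {x : Om | (x (n + (k + 1) * (i : ℕ)) : ℝ) ≤ 1 / 3}) ∩
      (⋃ i ∈ Finset.range (64 * 2 ^ k + 1), {x : Om | 2 / 3 ≤ (x (n + (k + 1) * (i : ℕ)) : ℝ)})) := by
    ext x
    simp [Xk, -Order.lt_add_one_iff]
  rw [this]
  refine isClosed_iInter fun n => IsClosed.inter ?_ ?_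
  · exact isClosed_biUnion_finset fun i _ => isClosed_le (by fun_prop) continuous_const
  · exact isClosed_biUnion_finset fun i _ => isClosed_le continuous_const (by fun_prop)

theorem isClosed_XX : IsClosed XX := isClosed_iInter isClosed_Xk

theorem Xk_shf (k : ℕ) (m : ℤ) {x : Om} (hx : x ∈ Xk k) : shf m x ∈ Xk k := by
  intro n
  have := hx (n + m)
  simp only [shf]
  simpa only [add_right_comm n m] using this

theorem XX_shf (m : ℤ) {x : Om} (hx : x ∈ XX) : shf m x ∈ XX :=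
  Set.mem_iInter.2 fun k => Xk_shf k m (Set.mem_iInter.1 hx k)

theorem XX_free {x : Om} (hx : x ∈ XX) (n : ℤ) (h : shf n x = x) : n = 0 := by
  have key : ∀ k : ℕ, shf (k + 1) x ≠ x := by
    intro k hk
    have h1 : ∀ i : ℕ, x (0 + (k + 1) * (i : ℕ)) = x 0 := by
      intro i
      induction i with
      | zero => simp
      | succ i ih =>
        rw [← ih, ← congrFun hk (0 + (k + 1) * (i : ℕ))]
        simp only [shf]
        congr 1
        push_cast
        ring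
    obtain ⟨⟨i, -, hi⟩, j, -, hj⟩ := Set.mem_iInter.1 hx k 0
    rw [h1] at hi hj
    linarith
  rcases lt_trichotomy n 0 with hn | hn | hn
  · exfalso
    apply key (-n - 1).toNat
    rw [show (((-n - 1).toNat : ℕ) : ℤ) + 1 = -n by omega]
    conv_lhs => rw [← h, ← shf_add, neg_add_cancel, shf_zero]
  · exact hn
  · exfalso
    apply key (n - 1).toNat
    rwa [show (((n - 1).toNat : ℕ) : ℤ) + 1 = n by omega]

theorem not_small_XX : ¬ Small XX := by
  intro h
  obtain ⟨V, hV, hXV, p0, hp0⟩ := h (1 / 4) (by norm_num)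
  obtain ⟨t, ht⟩ := hV.isClosed_compl.isCompact.elim_finite_subfamily_closed Xk isClosed_Xk (by
    rw [← Set.disjoint_iff_inter_eq_empty]
    exact Set.disjoint_left.2 fun x hx hx' => hx (hXV hx'))
  obtain ⟨p, hp1, hp2⟩ := Nat.exists_infinite_primes (p0 + t.sup id + 3)
  have : Fact p.Prime := ⟨hp2⟩
  obtain ⟨m, hm, hc⟩ := hp0 p (by omega)
  let f : ℕ → (ZMod p → ℝ) → (ZMod p → ℝ) := fun k y j =>
    Set.projIcc (0 : ℝ) 1 zero_le_one (p * y (((k + 1 : ℕ) : ZMod p) * j))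
  have hf : ∀ k, Continuous (f k) := fun k => continuous_pi fun j =>
    continuous_subtype_val.comp
      (continuous_projIcc.comp (continuous_const.mul (continuous_apply _)))
  have hk0 : ∀ k ∈ t, ((k + 1 : ℕ) : ZMod p) ≠ 0 := by
    intro k hk h0
    have h1 := Nat.le_of_dvd (by omega) ((ZMod.natCast_eq_zero_iff _ _).1 h0)
    have h2 : k ≤ t.sup id := Finset.le_sup (f := id) hk
    omega
  have hfe : ∀ k ∈ t, ∀ s y, f k (sh s y) = sh (((k + 1 : ℕ) : ZMod p)⁻¹ * s) (f k y) := by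
    intro k hk s y
    funext j
    simp only [f, sh]
    rw [mul_add ((k + 1 : ℕ) : ZMod p), ← mul_assoc, mul_inv_cancel₀ (hk0 k hk), one_mul]
  have hB := cov_biUnion t (fun k => 4 * (p / (64 * 2 ^ k + 1)) + 4 * (p / (64 * 2 ^ k + 1)))
    (fun k => f k ⁻¹' Bad p (64 * 2 ^ k) 0 (1 / 3) ∪
      (fun y => -f k y) ⁻¹' Bad p (64 * 2 ^ k) (-1) (-(2 / 3))) (fun k hk => by
      have h1 : 1 ≤ 64 * 2 ^ k := Nat.succ_le_of_lt (by positivity)
      refine Cov.union ?_ ?_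
      · exact (cov_bad (by omega) _ h1 (by norm_num)).preimage _ (hf k) _
          (inv_ne_zero (hk0 k hk)) (hfe k hk)
      · exact (cov_bad (by omega) _ h1 (by norm_num)).preimage _ (hf k).neg _
          (inv_ne_zero (hk0 k hk)) (fun s y => by rw [hfe k hk]; rfl))
  have hall := (hc.union hB).mono (S' := S0 p) (fun y hy => ?_) le_rfl
  · have h1 := borsuk_ulam hall
    have h2 : ((∑ k ∈ t, (4 * (p / (64 * 2 ^ k + 1)) + 4 * (p / (64 * 2 ^ k + 1))) : ℕ) : ℝ) ≤
        p / 4 := by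
      push_cast [-Nat.cast_div_charZero]
      have h3 : ∀ k ∈ t, (4 : ℝ) * ((p / (64 * 2 ^ k + 1) : ℕ) : ℝ) +
          4 * ((p / (64 * 2 ^ k + 1) : ℕ) : ℝ) ≤ p / 8 * (1 / 2) ^ k := by
        intro k _
        have e1 := cast_div_le p (64 * 2 ^ k)
        have e2 : (p : ℝ) / (((64 * 2 ^ k : ℕ) : ℝ) + 1) ≤ p / 64 * (1 / 2) ^ k := by
          rw [one_div, inv_pow, ← div_eq_mul_inv, div_div]
          push_cast
          exact div_le_div_of_nonneg_left (Nat.cast_nonneg _) (by positivity) (by linarith)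
        linarith
      refine (Finset.sum_le_sum h3).trans ?_
      rw [← Finset.mul_sum]
      have h4 : ∑ k ∈ t, (1 / 2 : ℝ) ^ k ≤ 2 := by
        have := summable_geometric_two.sum_le_tsum t (fun i _ => by positivity)
        rwa [tsum_geometric_two] at this
      have hp' : (0 : ℝ) ≤ p := Nat.cast_nonneg _
      nlinarith
    have h3 : (p : ℝ) ≤ m + ((∑ k ∈ t, (4 * (p / (64 * 2 ^ k + 1)) +
        4 * (p / (64 * 2 ^ k + 1))) : ℕ) : ℝ) + 1 := by exact_mod_cast h1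
    have h4 : (3 : ℝ) ≤ p := by exact_mod_cast (show 3 ≤ p by omega)
    linarith
  · by_cases hy' : ∀ k ∈ t, emb p y ∈ Xk k
    · left
      intro n
      by_contra hcon
      have : shf n (emb p y) ∈ Vᶜ ∩ ⋂ k ∈ t, Xk k :=
        ⟨hcon, Set.mem_iInter₂.2 fun k hk => Xk_shf k n (hy' k hk)⟩
      rw [ht] at this
      exact this
    right
    push Not at hy'
    obtain ⟨k, hk, hy'⟩ := hy'
    refine Set.mem_iUnion₂.2 ⟨k, hk, ?_⟩
    obtain ⟨hy1, hy2, j0, hj0⟩ := hy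
    have hval : ∀ (n : ℤ) (i : ℕ), f k y (((k + 1 : ℕ) : ZMod p)⁻¹ * n + i) =
        emb p y (n + (k + 1) * (i : ℕ)) := by
      intro n i
      simp only [f, emb]
      rw [mul_add ((k + 1 : ℕ) : ZMod p), ← mul_assoc, mul_inv_cancel₀ (hk0 k hk), one_mul]
      push_cast
      rfl
    have hval' : ∀ j, f k y (((k + 1 : ℕ) : ZMod p)⁻¹ * j) =
        Set.projIcc (0 : ℝ) 1 zero_le_one (p * y j) := by
      intro j
      simp only [f]
      rw [← mul_assoc, mul_inv_cancel₀ (hk0 k hk), one_mul]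
    simp only [Xk, Set.mem_ofPred_eq, not_forall, not_and_or, not_exists, not_le] at hy'
    obtain ⟨n, hn | hn⟩ := hy'
    · left
      refine ⟨⟨((k + 1 : ℕ) : ZMod p)⁻¹ * n, fun i hi => ?_⟩, ((k + 1 : ℕ) : ZMod p)⁻¹ * j0, ?_⟩
      · rw [hval]
        exact ((hn i).resolve_left (not_not.2 hi)).le
      · rw [hval', hj0]
        simp
    · right
      have : ∃ j, 1 ≤ p * y j := by
        by_contra hcon
        push Not at hcon
        have := Finset.sum_lt_sum_of_nonempty Finset.univ_nonempty (fun j _ => hcon j)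
        rw [← Finset.mul_sum, hy2] at this
        simp at this
      obtain ⟨j1, hj1⟩ := this
      refine ⟨⟨((k + 1 : ℕ) : ZMod p)⁻¹ * n, fun i hi => ?_⟩, ((k + 1 : ℕ) : ZMod p)⁻¹ * j1, ?_⟩
      · simp only [Pi.neg_apply, neg_le_neg_iff]
        rw [hval]
        exact ((hn i).resolve_left (not_not.2 hi)).le
      · simp only [Pi.neg_apply, neg_le_neg_iff]
        rw [hval', Set.projIcc_of_right_le _ hj1]

end Pool.Agent.P.MP_b83b91_an
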