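import Pool.Agent.P.MP_b83b91_an.Defs
import Pool.Agent.P.MP_b83b91_an.Small

/-!
The transformation groupoid of the free subshift is principal, amenable, and does not have
finite dynamical complexity.
-/

namespace Pool.Agent.P.MP_b83b91_an

open Filter

/-- the unit space -/
abbrev XT := ↥XX

instance : CompactSpace XT := isCompact_iff_compactSpace.1 isClosed_XX.isCompact

/-- the shift on the subshift -/
def tr (n : ℤ) (x : XT) : XT := ⟨shf n x.1, XX_shf n x.2⟩

theorem tr_zero (x : XT) : tr 0 x = x := Subtype.ext (shf_zero _)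

theorem tr_add (m n : ℤ) (x : XT) : tr (m + n) x = tr m (tr n x) := Subtype.ext (shf_add _ _ _)

theorem continuous_tr (n : ℤ) : Continuous (tr n) :=
  ((continuous_shf n).comp continuous_subtype_val).subtype_mk _

theorem continuous_tr' : Continuous fun g : ℤ × XT => tr g.1 g.2 :=
  continuous_prod_of_discrete_left.2 continuous_tr

/-- the shift as a homeomorphism -/
def trH : XT ≃ₜ XT where
  toFun := tr 1
  invFun := tr (-1)
  left_inv x := by rw [← tr_add, neg_add_cancel, tr_zero]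
  right_inv x := by rw [← tr_add, add_neg_cancel, tr_zero]
  continuous_toFun := continuous_tr 1
  continuous_invFun := continuous_tr (-1)

theorem trH_zpow (n : ℤ) (x : XT) : (trH ^ n) x = tr n x := by
  induction n using Int.induction_on generalizing x with
  | zero => simp [tr_zero]
  | succ n ih =>
    rw [zpow_add_one, Homeomorph.mul_apply, ih, tr_add]
    rfl
  | pred n ih =>
    rw [zpow_sub_one, Homeomorph.mul_apply, ih, sub_eq_add_neg, tr_add]
    rfl

theorem snd_local : IsLocalHomeomorph (Prod.snd : ℤ × XT → XT) := by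
  intro g
  refine ⟨
    { toFun := Prod.snd
      invFun := fun x => (g.1, x)
      source := {g.1} ×ˢ Set.univ
      target := Set.univ
      map_source' := fun _ _ => trivial
      map_target' := fun _ _ => ⟨rfl, trivial⟩
      left_inv' := fun h hh => Prod.ext hh.1.symm rfl
      right_inv' := fun _ _ => rfl
      open_source := (isOpen_discrete _).prod isOpen_univ
      open_target := isOpen_univ
      continuousOn_toFun := continuous_snd.continuousOn
      continuousOn_invFun := (continuous_const.prodMk continuous_id).continuousOn },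
    ⟨rfl, trivial⟩, rfl⟩

/-- inversion as a homeomorphism -/
def invH : ℤ × XT ≃ₜ ℤ × XT where
  toFun g := (-g.1, tr g.1 g.2)
  invFun g := (-g.1, tr g.1 g.2)
  left_inv g := by simp only [← tr_add, neg_add_cancel, tr_zero, neg_neg]
  right_inv g := by simp only [← tr_add, neg_add_cancel, tr_zero, neg_neg]
  continuous_toFun := (continuous_fst.neg).prodMk continuous_tr'
  continuous_invFun := (continuous_fst.neg).prodMk continuous_tr'

/-- the transformation groupoid -/
def TG : EtaleGroupoid (ℤ × XT) XT where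
  r g := tr g.1 g.2
  s g := g.2
  unit x := (0, x)
  mul g h := (g.1 + h.1, h.2)
  inv g := (-g.1, tr g.1 g.2)
  r_unit x := tr_zero x
  s_unit _ := rfl
  r_mul g h e := by simp only [tr_add, ← e]
  s_mul _ _ _ := rfl
  mul_assoc g h k _ _ := by simp only [add_assoc]
  unit_mul g := by simp
  mul_unit g := by simp
  r_inv g := by simp only [← tr_add, neg_add_cancel, tr_zero]
  s_inv _ := rfl
  mul_inv g := by simp
  inv_mul g := by simp
  continuous_unit := continuous_const.prodMk continuous_id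
  continuousOn_mul := by fun_prop
  continuous_inv := invH.continuous
  r_local := snd_local.comp invH.isLocalHomeomorph
  s_local := snd_local

theorem principal : TG.Principal := by
  rintro ⟨n, x⟩ h
  have : n = 0 := XX_free x.2 n (congrArg Subtype.val h)
  subst this
  simp only [TG, tr_zero]

/-- the fibre of the range map is a copy of the integers -/
def fib (x : XT) : ℤ ≃ {h // TG.r h = x} where
  toFun n := ⟨(n, tr (-n) x), by simp only [TG, ← tr_add, add_neg_cancel, tr_zero]⟩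
  invFun h := h.1.1
  left_inv _ := rfl
  right_inv h := by
    obtain ⟨⟨n, y⟩, rfl⟩ := h
    simp only [TG, ← tr_add, neg_add_cancel, tr_zero]

/-- Folner weights -/
noncomputable def wt (N : ℕ) (n : ℤ) : ℝ := if n ∈ Finset.Icc (0 : ℤ) N then ((N : ℝ) + 1)⁻¹ else 0

theorem hasSum_ind (s : Finset ℤ) (c : ℝ) :
    HasSum (fun n => if n ∈ s then c else 0) (s.card * c) := by
  have := hasSum_sum_of_ne_finset_zero (L := SummationFilter.unconditional ℤ)
    (f := fun n => if n ∈ s then c else 0) (s := s) (fun n hn => if_neg hn)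
  rwa [Finset.sum_ite_mem, Finset.inter_self, Finset.sum_const, nsmul_eq_mul] at this

theorem wt_diff (N M : ℕ) (m : ℤ) (hm : |m| ≤ M) :
    Summable (fun n => |wt N (m + n) - wt N n|) ∧
      ∑' n, |wt N (m + n) - wt N n| ≤ (4 * M + 2) * ((N : ℝ) + 1)⁻¹ := by
  have h1 := (hasSum_ind (Finset.Icc (-M : ℤ) M) ((N : ℝ) + 1)⁻¹).add
    (hasSum_ind (Finset.Icc (N - M : ℤ) (N + M)) ((N : ℝ) + 1)⁻¹)
  have hc : (0 : ℝ) ≤ ((N : ℝ) + 1)⁻¹ := by positivity
  have hle : ∀ n, |wt N (m + n) - wt N n| ≤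
      (if n ∈ Finset.Icc (-M : ℤ) M then ((N : ℝ) + 1)⁻¹ else 0) +
      (if n ∈ Finset.Icc (N - M : ℤ) (N + M) then ((N : ℝ) + 1)⁻¹ else 0) := by
    intro n
    have := abs_le.1 hm
    simp only [wt, Finset.mem_Icc]
    split_ifs <;> first | omega | simp [abs_of_nonneg hc, hc]
  have h2 : Summable (fun n => |wt N (m + n) - wt N n|) :=
    Summable.of_nonneg_of_le (fun n => abs_nonneg _) hle h1.summable
  refine ⟨h2, (h2.tsum_le_tsum hle h1.summable).trans ?_⟩
  rw [h1.tsum_eq, Int.card_Icc, Int.card_Icc,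
    show ((M : ℤ) + 1 - -M).toNat = 2 * M + 1 by omega,
    show ((N : ℤ) + M + 1 - (N - M)).toNat = 2 * M + 1 by omega]
  push_cast
  linarith

theorem bounded_of_compact {K : Set (ℤ × XT)} (hK : IsCompact K) :
    ∃ M : ℕ, ∀ g ∈ K, |g.1| ≤ M := by
  obtain ⟨b, hb⟩ := (hK.image (continuous_fst.abs)).finite_of_discrete.bddAbove
  exact ⟨b.toNat, fun g hg => (hb ⟨g, hg, rfl⟩).trans (Int.self_le_toNat b)⟩

theorem isCompact_band (s : Finset ℤ) : IsCompact ((s : Set ℤ) ×ˢ (Set.univ : Set XT)) :=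
  s.finite_toSet.isCompact.prod isCompact_univ

theorem amenable : TG.Amenable := by
  refine ⟨ℕ, inferInstance, inferInstance, inferInstance, fun N g => wt N g.1,
    fun N => ⟨?_, ?_, fun g => ?_, fun x => ?_⟩, fun K hK ε hε => ?_⟩
  · exact (continuous_of_discreteTopology (f := wt N)).comp continuous_fst
  · refine HasCompactSupport.intro (isCompact_band (Finset.Icc (0 : ℤ) N)) fun g hg => ?_
    exact if_neg fun h => hg ⟨h, trivial⟩
  · simp only [wt]
    split_ifs
    · positivity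
    · exact le_rfl
  · rw [← (fib x).hasSum_iff]
    have := hasSum_ind (Finset.Icc (0 : ℤ) N) ((N : ℝ) + 1)⁻¹
    rw [Int.card_Icc, show ((N : ℤ) + 1 - 0).toNat = N + 1 by omega, Nat.cast_succ,
      mul_inv_cancel₀ (by positivity)] at this
    exact this
  · obtain ⟨M, hM⟩ := bounded_of_compact hK
    obtain ⟨N0, hN0⟩ := exists_nat_gt ((4 * M + 2) / ε)
    filter_upwards [eventually_ge_atTop N0] with N hN g hg
    obtain ⟨h1, h2⟩ := wt_diff N M g.1 (hM g hg)
    rw [← (fib (TG.s g)).summable_iff, ← (fib (TG.s g)).tsum_eq]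
    refine ⟨h1, h2.trans_lt ?_⟩
    rw [← div_eq_mul_inv, div_lt_iff₀ (by positivity)]
    rw [div_lt_iff₀ hε] at hN0
    have : (N0 : ℝ) ≤ N := by exact_mod_cast hN
    nlinarith

theorem all_mem {H : Set (ℤ × XT)} (hH : TG.IsSub H) {Z : Set Om}
    (hZ : ∀ n, ∀ x ∈ Z, shf n x ∈ Z) (h1 : ∀ x : XT, x.1 ∈ Z → (1, x) ∈ H)
    (n : ℤ) (x : XT) (hx : x.1 ∈ Z) : (n, x) ∈ H := by
  induction n using Int.induction_on with
  | zero =>
    have := hH.1 _ (hH.2 _ (h1 x hx)) _ (h1 x hx) rfl
    simpa [TG] using this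
  | succ n ih =>
    have := hH.1 _ (h1 (tr n x) (hZ _ _ hx)) _ ih rfl
    simpa [TG, add_comm] using this
  | pred n ih =>
    have := hH.1 _ (hH.2 _ (h1 (tr (-n - 1) x) (hZ _ _ hx))) _ ih (by
      simp only [TG, ← tr_add]
      congr 1
      ring)
    simpa [TG, sub_eq_add_neg, add_comm] using this

theorem sub_gen (S : Set (ℤ × XT)) : S ⊆ TG.gen S := fun _ hg _ hH => hH.2 hg

theorem gen_isSub (S : Set (ℤ × XT)) : TG.IsSub (TG.gen S) :=
  ⟨fun g hg h hh e H hH => hH.1.1 g (hg H hH) h (hh H hH) e,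
    fun g hg H hH => hH.1.2 g (hg H hH)⟩

theorem not_fdc : ¬ TG.FDC := by
  intro h
  let Φ : Set (ℤ × XT) → Prop := fun H => ∀ Z : Set Om, IsClosed Z → Z ⊆ XX →
    (∀ n, ∀ x ∈ Z, shf n x ∈ Z) → (∀ x : XT, x.1 ∈ Z → (1, x) ∈ H) → Small Z
  have := h {H | (IsOpen H ∧ TG.IsSub H) ∧ Φ H} (fun H hH => hH.1) ?_ ?_
  · exact not_small_XX (this.2 XX isClosed_XX le_rfl (fun n x hx => XX_shf n hx)
      (fun _ _ => trivial))
  · intro H hH1 hH2 hH3
    refine ⟨⟨hH1, hH2⟩, fun Z _ hZ2 hZ3 hZ4 => ?_⟩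
    obtain ⟨M, hM⟩ := bounded_of_compact hH3
    have : Z = ∅ := by
      refine Set.eq_empty_of_forall_notMem fun x hx => ?_
      have := hM _ (subset_closure (all_mem hH2 hZ3 hZ4 (M + 1) ⟨x, hZ2 hx⟩ hx))
      have := (abs_le.1 this).2
      simp at this
    rw [this]
    exact small_empty
  · intro H hH1 hH2 hH3
    refine ⟨⟨hH1, hH2⟩, fun Z hZ1 hZ2 hZ3 hZ4 => small_step Z fun L => ?_⟩
    have hall := all_mem hH2 hZ3 hZ4
    obtain ⟨U0, U1, hU0, hU1, hU, hD0, hD1⟩ :=
      hH3 (H ∩ (Finset.Icc (-(L + 1) : ℤ) (L + 1) : Set ℤ) ×ˢ (Set.univ : Set XT))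
        (hH1.inter ((isOpen_discrete _).prod isOpen_univ))
        ((isCompact_band _).closure_of_subset Set.inter_subset_right) Set.inter_subset_left
    have hcl : ∀ U : Set XT, IsOpen U → IsClosed (Z ∩ Subtype.val '' Uᶜ) := fun U hU =>
      hZ1.inter (isClosed_XX.isClosedEmbedding_subtypeVal.isClosedMap _ hU.isClosed_compl)
    obtain ⟨ψ, hψ0, hψ1, -⟩ := exists_continuous_zero_one_of_isClosed (hcl U0 hU0) (hcl U1 hU1) (by
      rw [Set.disjoint_left]
      rintro _ ⟨hx, x, hx0, rfl⟩ ⟨-, y, hy1, hy⟩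
      obtain rfl : y = x := Subtype.ext hy
      have : y ∈ U0 ∪ U1 := by
        rw [hU]
        exact hall 0 y hx
      exact this.elim hx0 hy1)
    have key : ∀ (U : Set XT) (C : Set Om), IsClosed C →
        (∀ x : XT, x.1 ∈ Z → x.1 ∈ C → x ∈ U) →
        Φ (TG.gen {h ∈ H ∩ (Finset.Icc (-(L + 1) : ℤ) (L + 1) : Set ℤ) ×ˢ (Set.univ : Set XT) |
          TG.s h ∈ U}) → Small (Z ∩ Win L C) := by
      intro U C hC hCU hΦ
      refine hΦ _ (hZ1.inter (isClosed_Win L hC)) (Set.inter_subset_left.trans hZ2)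
        (fun n x hx => ⟨hZ3 n x hx.1, Win_shf L C n hx.2⟩) (fun x hx => ?_)
      obtain ⟨a, ha, hxa⟩ := hx.2 0
      rw [zero_add] at hxa
      have hz : (tr a x).1 ∈ Z := hZ3 _ _ hx.1
      have hmem : ∀ n : ℤ, -(L + 1 : ℤ) ≤ n → n ≤ L + 1 → (n, tr a x) ∈ TG.gen
          {h ∈ H ∩ (Finset.Icc (-(L + 1) : ℤ) (L + 1) : Set ℤ) ×ˢ (Set.univ : Set XT) |
            TG.s h ∈ U} := fun n h1 h2 =>
        sub_gen _ ⟨⟨hall n _ hz, Finset.mem_coe.2 (Finset.mem_Icc.2 ⟨h1, h2⟩), trivial⟩, hCU _ hz hxa⟩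
      have e := (gen_isSub _).1 _ (hmem (1 - a) (by omega) (by omega)) _
        ((gen_isSub _).2 _ (hmem (-a) (by omega) (by omega))) (by
          simp only [TG, ← tr_add, neg_neg, neg_add_cancel, tr_zero])
      simpa only [TG, ← tr_add, neg_neg, neg_add_cancel, tr_zero, sub_add_cancel] using e
    refine ⟨ψ, ψ.continuous, key U0 _ (isClosed_le continuous_const ψ.continuous) ?_ hD0.2,
      key U1 _ (isClosed_le ψ.continuous continuous_const) ?_ hD1.2⟩
    · intro x hx hxC
      by_contra hcon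
      have := hψ0 ⟨hx, x, hcon, rfl⟩
      simp only [Set.mem_ofPred_eq, this, Pi.zero_apply] at hxC
      linarith
    · intro x hx hxC
      by_contra hcon
      have := hψ1 ⟨hx, x, hcon, rfl⟩
      simp only [Set.mem_ofPred_eq, this, Pi.one_apply] at hxC
      linarith

end Pool.Agent.P.MP_b83b91_an
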